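import Mathlib
import Pool.Agent.Q45.TropCanc

/-!
# Cancellative elements of tropicalized prime quotients are the classes of terms

`trop`, `tropIdeal`, `BendRel` and `Bend` (in `Pool.Agent.Q45.TropBend`) are the coefficientwise
valuation, the tropicalization of an ideal, the bend relations and the bend congruence.

`result`: `S` is any semifield in which `a + b` is always `a` or `b` (every sub-semifield of the
tropical semifield is one), `K` is a field with a valuation `v : K → S` in the max convention (the
order of `S` is `x ≤ y ↔ x + y = y`), `M` is any additive commutative monoid and `I` is any prime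
ideal of `K[M]`, principal or not, containing no monomial and no binomial.
Then an element of `S[M] / Bend (trop I)` is cancellative iff it is the class of a term.

`posed` is the special case for toric monoids and sub-semifields of the tropical semifield:
`Tropical (WithTop ℝᵒᵈ)` is the tropical semifield in the max convention, a sub-semifield is given
as a semifield `S` with an injective homomorphism to it, and `toricMonoid σ` is the monoid of
lattice points nonpositive on `σ`.
-/

namespace Pool.Agent.Results.MP_58a9d8_ag.CancellativeTerms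

open Q45.TropBend

theorem result {K S M : Type*} [Field K] [Semifield S] [AddCommMonoid M]
    (hS : ∀ a b : S, a + b = a ∨ a + b = b)
    (v : K → S) (hv0 : v 0 = 0) (hv1 : v 1 = 1) (hvm : ∀ a b, v (a * b) = v a * v b)
    (hva : ∀ a b, v (a + b) + (v a + v b) = v a + v b)
    (I : Ideal (AddMonoidAlgebra K M)) (hI : I.IsPrime)
    (hmon : ∀ (u : M) (c : K), c ≠ 0 → AddMonoidAlgebra.single u c ∉ I)
    (hbin : ∀ (u w : M) (c d : K), u ≠ w → c ≠ 0 → d ≠ 0 →
      AddMonoidAlgebra.single u c + AddMonoidAlgebra.single w d ∉ I)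
    (x : (Bend (tropIdeal v hv0 I)).Quotient) :
    (∀ g h : (Bend (tropIdeal v hv0 I)).Quotient, x * g = x * h → g = h) ↔
      ∃ (u : M) (a : S), a ≠ 0 ∧
        x = ((AddMonoidAlgebra.single u a : AddMonoidAlgebra S M) :
          (Bend (tropIdeal v hv0 I)).Quotient) :=
  Q45.TropCanc.cancellative_iff ⟨hv0, hv1, hvm, hva⟩ hS hI ⟨hmon, hbin⟩ x

/-- The lattice points `u` with `⟨w, u⟩ ≤ 0` for all `w ∈ σ`. -/
def toricMonoid {n : ℕ} (σ : Set (Fin n → ℝ)) : AddSubmonoid (Fin n → ℤ) where
  carrier := {u | ∀ w ∈ σ, ∑ i, w i * (u i : ℝ) ≤ 0}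
  zero_mem' := by
    intro w _
    simp
  add_mem' := by
    intro a b ha hb w hw
    have h1 := ha w hw
    have h2 := hb w hw
    have h3 : ∑ i, w i * (((a + b) i : ℤ) : ℝ) =
        ∑ i, w i * (a i : ℝ) + ∑ i, w i * (b i : ℝ) := by
      rw [← Finset.sum_add_distrib]
      apply Finset.sum_congr rfl
      intro i _
      rw [Pi.add_apply]
      push_cast
      ring
    rw [h3]
    linarith

/-- The special case as the problem poses it. -/
theorem posed {K S : Type*} [Field K] [Semifield S]
    (ι : S →+* Tropical (WithTop ℝᵒᵈ)) (hι : Function.Injective ι)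
    (v : K → S) (hv0 : v 0 = 0) (hv1 : v 1 = 1) (hvm : ∀ a b, v (a * b) = v a * v b)
    (hva : ∀ a b, v (a + b) + (v a + v b) = v a + v b)
    (n : ℕ) (σ : Set (Fin n → ℝ))
    (I : Ideal (AddMonoidAlgebra K (toricMonoid σ))) (hI : I.IsPrime)
    (hmon : ∀ (u : toricMonoid σ) (c : K), c ≠ 0 → AddMonoidAlgebra.single u c ∉ I)
    (hbin : ∀ (u w : toricMonoid σ) (c d : K), u ≠ w → c ≠ 0 → d ≠ 0 →
      AddMonoidAlgebra.single u c + AddMonoidAlgebra.single w d ∉ I)
    (x : (Bend (tropIdeal v hv0 I)).Quotient) :
    (∀ g h : (Bend (tropIdeal v hv0 I)).Quotient, x * g = x * h → g = h) ↔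
      ∃ (u : toricMonoid σ) (a : S), a ≠ 0 ∧
        x = ((AddMonoidAlgebra.single u a : AddMonoidAlgebra S (toricMonoid σ)) :
          (Bend (tropIdeal v hv0 I)).Quotient) := by
  refine result ?_ v hv0 hv1 hvm hva I hI hmon hbin x
  intro a b
  rcases _root_.le_total (ι a) (ι b) with h | h
  · left
    apply hι
    rw [map_add]
    exact Tropical.add_eq_left h
  · right
    apply hι
    rw [map_add]
    exact Tropical.add_eq_right h

end Pool.Agent.Results.MP_58a9d8_ag.CancellativeTerms
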